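import Pool.Agent.Results.MP_b525bf_ag.AdmissibleTowers
import Pool.Agent.Run7.h945.TR.Fin2

/-!
MP_19ffc6_ag: resolution of the quotients of `S × A ^ r`, where `S` is an affine variety of any
dimension over a perfect field of characteristic `p`, by finite families of group schemes of order
`p` over `S` which act by translations of the fibres `A ^ r` in the directions of given vectors.

The coordinates `z j` of `A ^ r` are divided into blocks, and a function `v j` on `S` is given for
each of them. The group schemes `G b` with the coordinate rings `B[θ] / (θ ^ p - b * θ)`,
`S = Spec B`, act by `z j ↦ z j + θ * g * v j` for the `z j` in one block, and `z j ↦ z j` for the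
`z j` in the other blocks. Here `b` and `g` are arbitrary functions on `S`, and the number of group
schemes is arbitrary; the functions `v j` and the coordinates of `S` are in the set `P` of an
admissible pair `(K, P)` of the starting file `MP_b525bf_ag.AdmissibleTowers`, where `K` is the
function field of `S`.

Examples. (1) `S = S_1 × ... × S_m` is a product of affine surfaces (or `S_i` has a finite
morphism to such a surface), and each `v j` is a product of functions on the factors `S_i`:
for example the quotient of `S_1 × ... × S_m × A ^ r` by `ℤ / p` acting by
`z j ↦ z j + f j1 (s_1) * ... * f jm (s_m)`, or by the vector field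
`∑ f j1 (s_1) * ... * f jm (s_m) * ∂/∂z j`. (2) `S = A ^ N` and the `v j` are products of linear
polynomials (hyperplane arrangements), or of polynomials of degree at most `s`, where
`s ^ 2 ^ N < p` and `k` is infinite. (3) The fibres of the fibrations, the towers and the radical
coverings of the starting file.

The surface case with arbitrary families of vectors is the hand-in
`MP_b525bf_ag.SurfaceTranslations`.

The proof: on the charts of a smooth variety, proper and birational over `S`, the `v j` of each
block divide each other (`exists_model2`); this uses the models of the starting files,
principalization and the normality of the charts. The pivot of the first group scheme of a block is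
also a pivot for the group schemes of this block which act on the quotient, since they act only on
the new coordinate `z i ^ p - b * (g * v i) ^ (p - 1) * z i`, and the other blocks are not changed
(`good_blocks`). So the rings of invariants over the charts are polynomial rings, and they are
glued to a resolution (`atl_of_LM`).

helper945; built on the library of the starting files (helpers 558, 762, 98 and their teams).
-/

set_option autoImplicit false

open AlgebraicGeometry CategoryTheory Pool.Agent.W558
  Pool.Agent.Results.MP_b525bf_ag.AdmissibleTowers

namespace Pool.Agent.Results.MP_19ffc6_ag.BlockTranslations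

section defs

variable {B : Type} [CommRing B] {m n r : ℕ}

/-- The homomorphism `f (z) ↦ f (z + θ * w)` from the polynomial ring `B[z]` in `z 1, ..., z r` to
`B[z][θ]`. -/
noncomputable def shift (w : Fin r → B) :
    MvPolynomial (Fin r) B →ₐ[B] Polynomial (MvPolynomial (Fin r) B) :=
  MvPolynomial.aeval fun j => Polynomial.C (MvPolynomial.X j) +
    Polynomial.C (MvPolynomial.C (w j)) * Polynomial.X

/-- The polynomial `f` in `z` over `B` is invariant under the action `z ↦ z + θ * w` of the group
scheme with the coordinate ring `B[θ] / (θ ^ p - b * θ)`: modulo `θ ^ p - b * θ` one has
`f (z + θ * w) = f (z)`. -/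
def IsInvariant (p : ℕ) (b : B) (w : Fin r → B) (f : MvPolynomial (Fin r) B) : Prop :=
  Polynomial.X ^ p - Polynomial.C (MvPolynomial.C b) * Polynomial.X ∣ shift w f - Polynomial.C f

/-- The algebra of the polynomials in `z` over `B` which are invariant under the actions
`z ↦ z + θ * w i` of the group schemes with the coordinate rings `B[θ] / (θ ^ p - b i * θ)`. -/
noncomputable def invariants (k : Type) [Field k] [Algebra k B] (p : ℕ) (b : Fin m → B)
    (w : Fin m → Fin r → B) : Subalgebra k (MvPolynomial (Fin r) B) where
  carrier := {f | ∀ i, IsInvariant p (b i) (w i) f}
  mul_mem' := fun hf hg i => Pool.Agent.Run7.h945.TR.Inv.mul (hf i) (hg i)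
  add_mem' := fun hf hg i => Pool.Agent.Run7.h945.TR.Inv.add (hf i) (hg i)
  algebraMap_mem' := fun a i =>
    Pool.Agent.Run7.h945.TR.Inv.const p (b i) (w i) (algebraMap k B a)

/-- The quotient of `Spec B × A ^ r` by the group schemes. -/
noncomputable def quot (k : Type) [Field k] [Algebra k B] (p : ℕ) (b : Fin m → B)
    (w : Fin m → Fin r → B) : Scheme.{0} :=
  Spec (CommRingCat.of (invariants k p b w))

/-- The structure morphism of the quotient. -/
noncomputable def quotStr (k : Type) [Field k] [Algebra k B] (p : ℕ) (b : Fin m → B)
    (w : Fin m → Fin r → B) : quot k p b w ⟶ Spec (CommRingCat.of k) :=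
  Spec.map (CommRingCat.ofHom (algebraMap k (invariants k p b w)))

/-- The vectors with the entries `g i * v j` for the `j` in the block `a i`, and `0` for the `j` in
the other blocks. -/
def blockVectors (β : Fin r → Fin n) (v : Fin r → B) (a : Fin m → Fin n) (g : Fin m → B) :
    Fin m → Fin r → B :=
  fun i j => if β j = a i then g i * v j else 0

end defs

/-- Let `k` be a perfect field of characteristic `p`, and let `(K, P)` be an admissible pair, for
example the function field of a product of surfaces and the set of the products of functions on
the factors. Let `S = Spec B` be an affine variety over `k` with the function field `K`, which has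
a finite morphism to an affine space with coordinate functions in `P`. Let `v j` be functions on `S`
in `P`, for `j < r`, and let the coordinates of `A ^ r` be divided into blocks: `z j` is in the
block `β j`. Let `b i` and `g i` be arbitrary functions on `S` and `a i` blocks, for `i < m`. The
quotient of `S × A ^ r` by the group schemes over `S` with the coordinate rings
`B[θ] / (θ ^ p - b i * θ)`, which act by `z j ↦ z j + θ * g i * v j` if `z j` is in the block
`a i`, and by `z j ↦ z j` for the other `j`, is a variety and has a resolution of singularities. -/
theorem result (p : ℕ) [Fact p.Prime] (k : Type) [Field k] [PerfectField k] [CharP k p]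
    (K : Type) [Field K] [Algebra k K] (P : Set K) (hP : IsAdmissible p k K P)
    (B : Type) [CommRing B] [IsDomain B] [Algebra k B] [Algebra.FiniteType k B] [Algebra B K]
    [IsScalarTower k B K] [IsFractionRing B K]
    (s : Finset B) (hs : ∀ x ∈ s, algebraMap B K x ∈ P)
    (hint : ∀ x : B, IsIntegral (Algebra.adjoin k (s : Set B)) x)
    (m n r : ℕ) (β : Fin r → Fin n) (v : Fin r → B) (hv : ∀ j, algebraMap B K (v j) ∈ P)
    (a : Fin m → Fin n) (g b : Fin m → B) :
    IsResolvableVariety (quotStr k p b (blockVectors β v a g)) := by
  have hp : p.Prime := Fact.out
  have hM := mod_of_admissible p k K P hP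
  have hBp : CharP B p := charP_of_injective_algebraMap (algebraMap k B).injective p
  let l : List (B × (Fin r → B)) := List.ofFn fun i => (b i, blockVectors β v a g i)
  have heq : invariants k p b (blockVectors β v a g) = Pool.Agent.Run7.h945.TR.CI k p l := by
    ext f
    change (∀ i, IsInvariant p (b i) (blockVectors β v a g i) f) ↔
      ∀ x ∈ l, Pool.Agent.Run7.h945.TR.Inv p x.1 x.2 f
    rw [List.forall_mem_ofFn_iff]
    rfl
  have key : ∀ C : Subalgebra k (MvPolynomial (Fin r) B),
      C = Pool.Agent.Run7.h945.TR.CI k p l →
      IsResolvableVariety (X := Spec (CommRingCat.of C))
        (Spec.map (CommRingCat.ofHom (algebraMap k C))) := by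
    rintro _ rfl
    have h1 := Pool.Agent.Run7.h945.TR.finiteType_CI (k := k) (p := p) l
    refine isResolvableVariety_spec
      (Pool.Agent.Run7.h945.TR.hasResolution_blocks hM s hs hint v hv β l ?_)
    intro x hx
    obtain ⟨i, rfl⟩ := List.mem_ofFn.1 hx
    exact ⟨a i, g i, rfl⟩
  exact key _ heq

end Pool.Agent.Results.MP_19ffc6_ag.BlockTranslations
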