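import Pool.Agent.Run7.h802.Rz17

/-!
# Resolution of the quotients of products of affine curves by finite groups
-/

set_option autoImplicit false

open AlgebraicGeometry CategoryTheory IsDedekindDomain Pool.Agent.H920R2

namespace Pool.Agent.Results.MP_19ffc6_ag.CurveProductQuotients

/-- The algebra `B` with the homomorphisms `j i : A i → B` is the tensor product over `k` of the
algebras `A i`: homomorphisms `f i` from the `A i` to a commutative `k`-algebra `S` correspond to
homomorphisms `g` from `B` to `S`. So `Spec B` is the product of the `Spec (A i)` over `k`. -/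
def IsTensorProduct {k : Type} [Field k] {n : ℕ} {A : Fin n → Type} [∀ i, CommRing (A i)]
    [∀ i, Algebra k (A i)] {B : Type} [CommRing B] [Algebra k B] (j : ∀ i, A i →ₐ[k] B) :
    Prop :=
  ∀ (S : Type) [CommRing S] [Algebra k S] (f : ∀ i, A i →ₐ[k] S),
    ∃! g : B →ₐ[k] S, ∀ i a, g (j i a) = f i a

variable {k : Type} [Field k] {G : Type} [Group G]

/-- The algebra of invariants of the group `G`. -/
def invariants {B : Type} [CommRing B] [Algebra k B] (σ : G →* (B ≃ₐ[k] B)) : Subalgebra k B where
  carrier := {b | ∀ g, σ g b = b}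
  mul_mem' := fun ha hb g => by rw [map_mul, ha g, hb g]
  add_mem' := fun ha hb g => by rw [map_add, ha g, hb g]
  algebraMap_mem' := fun c g => AlgEquiv.commutes _ c

/-- The quotient of `Spec B` by the group `G`. -/
noncomputable def quot {B : Type} [CommRing B] [Algebra k B] (σ : G →* (B ≃ₐ[k] B)) : Scheme.{0} :=
  Spec (CommRingCat.of (invariants σ))

/-- The structure morphism of the quotient. -/
noncomputable def quotStr {B : Type} [CommRing B] [Algebra k B] (σ : G →* (B ≃ₐ[k] B)) :
    quot σ ⟶ Spec (CommRingCat.of k) :=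
  Spec.map (CommRingCat.ofHom (algebraMap k (invariants σ)))

section curves

variable {n : ℕ} {A : Fin n → Type} [∀ i, CommRing (A i)] [∀ i, Algebra k (A i)]

/-- The inertia group of the family `v` of closed points `v i` of the curves `Spec (A i)`: the
elements which act trivially on the residue fields of all the `v i`. -/
def inertia (ρ : ∀ i, G →* (A i ≃ₐ[k] A i)) (v : ∀ i, HeightOneSpectrum (A i)) : Subgroup G where
  carrier := {g | ∀ i (a : A i), ρ i g a - a ∈ (v i).asIdeal}
  mul_mem' {g h} hg hh i a := by
    have h1 : ρ i (g * h) a - a = (ρ i g (ρ i h a) - ρ i h a) + (ρ i h a - a) := by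
      rw [map_mul, AlgEquiv.mul_apply]
      ring
    rw [h1]
    exact Ideal.add_mem _ (hg i _) (hh i a)
  one_mem' i a := by
    rw [map_one, AlgEquiv.one_apply, sub_self]
    exact Ideal.zero_mem _
  inv_mem' {g} hg i a := by
    have h1 := hg i (ρ i g⁻¹ a)
    have h2 : ρ i g (ρ i g⁻¹ a) = a := by
      rw [← AlgEquiv.mul_apply, ← map_mul, mul_inv_cancel, map_one, AlgEquiv.one_apply]
    rw [h2] at h1
    rw [← neg_sub]
    exact (Ideal.neg_mem_iff _).2 h1

/-- The wild inertia at `v` acts by translations: there are rational functions `z i = x i / y i`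
on the curves, with a pole of order `m i` prime to `p` at `v i`, such that for every element `g` of
the inertia group of `v` whose order is a power of `p` there is a constant `c` with
`g (z i) = z i + c` for all `i`. -/
def Translations [∀ i, IsDedekindDomain (A i)] (p : ℕ) (ρ : ∀ i, G →* (A i ≃ₐ[k] A i))
    (v : ∀ i, HeightOneSpectrum (A i)) : Prop :=
  ∃ (x y : ∀ i, A i) (m : Fin n → ℕ), (∀ i, ¬ p ∣ m i) ∧
    (∀ i, y i ≠ 0 ∧
      (v i).intValuation (x i) = WithZero.exp (m i : ℤ) * (v i).intValuation (y i)) ∧
    ∀ g ∈ inertia ρ v, (∃ a : ℕ, g ^ p ^ a = 1) → ∃ c : k, ∀ i,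
      ρ i g (x i) * y i = ρ i g (y i) * (x i + algebraMap k (A i) c * y i)

end curves

/-- Let `p` be a prime, `k` a perfect field of characteristic `p`, and `A i`, `i = 1, …, n`, with
`n ≥ 1`, Dedekind domains of finite type over `k` which are not fields (smooth affine curves),
whose tensor product `B` over `k` is a domain, which is automatic if `k` is algebraically closed.
Let a finite group `G` act on the `A i` over `k`, and diagonally on `B`. Assume that at every family
`v` of closed points `v i` of the curves
* no element `g ≠ 1` of the inertia group of `v` acts trivially on one of the curves, and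
* the order of the inertia group is not divisible by `p ^ 2`, or the wild inertia at `v` acts by
  translations.

Then the quotient of the product of the curves by `G` is a variety and has a resolution of
singularities. -/
theorem result (p : ℕ) [Fact p.Prime] (k : Type) [Field k] [CharP k p] [PerfectField k] (n : ℕ)
    (hn : 0 < n) (A : Fin n → Type) [∀ i, CommRing (A i)] [∀ i, IsDedekindDomain (A i)]
    [∀ i, Algebra k (A i)] [∀ i, Algebra.FiniteType k (A i)] (hA : ∀ i, ¬ IsField (A i))
    (B : Type) [CommRing B] [Algebra k B] (j : ∀ i, A i →ₐ[k] B) (hj : IsTensorProduct j)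
    (hdom : IsAlgClosed k ∨ IsDomain B) (G : Type) [Group G] [Finite G]
    (ρ : ∀ i, G →* (A i ≃ₐ[k] A i)) (σ : G →* (B ≃ₐ[k] B))
    (hσ : ∀ g i a, σ g (j i a) = j i (ρ i g a))
    (hiso : ∀ v : ∀ i, HeightOneSpectrum (A i), ∀ g ∈ inertia ρ v, g ≠ 1 → ∀ i, ρ i g ≠ 1)
    (hwild : ∀ v : ∀ i, HeightOneSpectrum (A i),
      ¬ p ^ 2 ∣ Nat.card (inertia ρ v) ∨ Translations p ρ v) :
    IsVariety (quotStr σ) ∧ HasResolution (quotStr σ) := by
  have hne : Nonempty (Fin n) := ⟨⟨0, hn⟩⟩
  have hj' : IsCoprod k j :=
    ⟨fun S _ _ f => (hj S f).exists, fun S _ _ g g' h =>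
      (hj S fun i => g.comp (j i)).unique (fun _ _ => rfl) fun i a => (h i a).symm⟩
  have hdomB : IsDomain B := by
    rcases hdom with h | h
    · have h1 := isDomain_pi (k := k) n A
      exact isDomain_of_coprod hj' (isCoprod_pi (k := k) (A := A))
    · exact h
  exact Run7.h802.Rz.main_coprod p hA j hj' ρ σ hσ (fun v g hg => hiso v g hg)
    (fun v I hI => by
      have h1 : I = inertia ρ v := by
        ext g
        exact hI g
      rw [h1]
      exact hwild v) (invariants σ) (fun x => Iff.rfl)

end Pool.Agent.Results.MP_19ffc6_ag.CurveProductQuotients
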