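import Pool.Agent.Run7.h275.S.FC

/-!
# A smooth model over which all arcs lift
-/

set_option autoImplicit false
set_option linter.unusedVariables false

namespace Pool.Agent.Results.MP_19ffc6_ag.ResolutionOfAllArcs

open AlgebraicGeometry CategoryTheory

/-- The arc `α`, a morphism from the spectrum of the local ring `R` with the maximal ideal `𝔪`, has contact order at most `q` with
the complement of the open set `U`: it factors through an affine open set, on which there is a function `g` which vanishes
outside of `U` and whose image in `R` is not in `𝔪 ^ (q + 1)`. -/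
def ContactLE {X : Scheme.{0}} (U : X.Opens) {R : Type} [CommRing R] [IsLocalRing R]
    (α : Spec (CommRingCat.of R) ⟶ X) (q : ℕ) : Prop :=
  ∃ (V : X.Opens) (hV : IsAffineOpen V) (ρ : Γ(X, V) ⟶ CommRingCat.of R) (g : Γ(X, V)), X.basicOpen g ≤ U ∧
    Spec.map ρ ≫ hV.fromSpec = α ∧ ρ g ∉ IsLocalRing.maximalIdeal R ^ (q + 1)

/-- The inverse image under `f` of the complement of the open set `U` is a divisor with strict normal crossings at the point `y`,
or does not contain `y`: there are generators of the maximal ideal of the local ring at `y`, as many as the dimension, such that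
the inverse image of the complement of `U` is defined in the spectrum of the local ring by the product of some of them. -/
def SNCAt {X Y : Scheme.{0}} (f : Y ⟶ X) (U : X.Opens) (y : Y) : Prop :=
  ∃ (d : ℕ) (t : Fin d → Y.presheaf.stalk y) (J : Finset (Fin d)),
    Ideal.span (Set.range t) = IsLocalRing.maximalIdeal (Y.presheaf.stalk y) ∧
    ringKrullDim (Y.presheaf.stalk y) = d ∧
    ∀ z : Spec (Y.presheaf.stalk y), (Y.fromSpecStalk y ≫ f) z ∈ U ↔
      ∀ j ∈ J, t j ∉ (show PrimeSpectrum (Y.presheaf.stalk y) from z).asIdeal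

/-- **Theorem.** Let `X` be an integral separated scheme of finite type over a perfect field and `V₀` a nonempty open subset of
`X`.  There are a smooth integral scheme `Y`, a separated morphism `f : Y ⟶ X` locally of finite type, which is an isomorphism over
a nonempty open set `V ≤ V₀` and for which the inverse image of the complement of `V` is a divisor with strict normal crossings, and
an increasing sequence of quasi-compact open subsets `W q` of `Y`, which contain the inverse image of `V`, with the following
property: all morphisms from spectra of valuation rings to `X` whose contact order with the complement of `V` is at most `q` lift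
uniquely to `Y`, and the lift has its values in `W q`.  For discrete valuation rings all arcs which meet `V` have a finite contact
order. -/
theorem result :
    ∀ (k : Type) [Field k] [PerfectField k] (X : Scheme.{0}) (sX : X ⟶ Spec (CommRingCat.of k)),
      AlgebraicGeometry.IsIntegral X → AlgebraicGeometry.IsSeparated sX →
      AlgebraicGeometry.LocallyOfFiniteType sX → AlgebraicGeometry.QuasiCompact sX →
      ∀ V₀ : X.Opens, V₀ ≠ ⊥ →
      ∃ (Y : Scheme.{0}) (sY : Y ⟶ Spec (CommRingCat.of k)) (f : Y ⟶ X),
        AlgebraicGeometry.IsIntegral Y ∧ AlgebraicGeometry.Smooth sY ∧ f ≫ sX = sY ∧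
        AlgebraicGeometry.IsSeparated f ∧ AlgebraicGeometry.LocallyOfFiniteType f ∧
        ∃ V : X.Opens, V ≤ V₀ ∧ V ≠ ⊥ ∧ IsIso (AlgebraicGeometry.morphismRestrict f V) ∧ (∀ y : Y, SNCAt f V y) ∧
        ∃ W : ℕ → Y.Opens, Monotone W ∧ (∀ q, IsCompact (W q : Set Y)) ∧ f ⁻¹ᵁ V ≤ W 0 ∧
        ∀ (R : Type) [CommRing R] [IsDomain R] [ValuationRing R] (α : Spec (CommRingCat.of R) ⟶ X),
          (∀ q, ContactLE V α q → ∃ β : Spec (CommRingCat.of R) ⟶ Y,
            β ≫ f = α ∧ (∀ z, β z ∈ W q) ∧ ∀ β' : Spec (CommRingCat.of R) ⟶ Y, β' ≫ f = α → β' = β) ∧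
          (IsDiscreteValuationRing R → (∃ z, α z ∈ V) → ∃ q, ContactLE V α q) := by
  intro k _ _ X sX hX h1 h2 h3 V₀ hV₀
  obtain ⟨Y, f, h4, h5, h6, h7, V, h8, h9, h10, h11, W, h12, h13, h14, h15⟩ :=
    Pool.Agent.Run7.h275.SC.t_MAINLK k X sX h2 h3 h1 V₀ hV₀
  refine ⟨Y, f ≫ sX, f, h4, Pool.Agent.Run7.h299.SC.t_SMO k Y (f ≫ sX) inferInstance h5, rfl, h6, h7, V, h8, h9, h10,
    h11, W, h12, h13, h14, ?_⟩
  intro R _ _ _ α
  constructor
  · intro q hq
    obtain ⟨β, hβ, hβW⟩ := h15 R α q hq
    refine ⟨β, hβ, hβW, fun β' hβ' => ?_⟩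
    refine _root_.Run7.h531.SC.t_UNQ X Y f V h6 h10 R β' β ?_ (hβ'.trans hβ.symm)
    rw [hβ']
    exact Pool.Agent.Run7.h275.SC.t_CTMV X V R α q hq
  · intro hR hα
    exact Pool.Agent.Run7.h300.SC.t_CTE X V R α hα

end Pool.Agent.Results.MP_19ffc6_ag.ResolutionOfAllArcs
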