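import Pool.Agent.Run7.h342.RZ.Fin

/-!
MP_19ffc6_ag: resolution of the quotients of `Z × V ⊗ W` by finite groups, `V` a representation of
dimension two, the action on `Z` and `W` commutative and tame.
-/

set_option autoImplicit false

open AlgebraicGeometry CategoryTheory MvPolynomial Pool.Agent.H920R2

namespace Pool.Agent.Results.MP_19ffc6_ag.TwoDimensionalRepresentations

variable {k S G : Type} [Field k] [CommRing S] [Algebra k S] [Group G] {m : ℕ}

/-- The endomorphism of the polynomial ring `S[x_(i, j)]`, `i < 2`, `j < m`, given by a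
`2 × 2`-matrix `A` and an `m × m`-matrix `B` over `k` and an automorphism `τ` of the `k`-algebra
`S`: it is `τ` on `S`, and `x_(i, j) ↦ ∑ A_(l, i) B_(j', j) x_(l, j')`, the sum over all `l`, `j'`. -/
noncomputable def subst (A : Matrix (Fin 2) (Fin 2) k) (B : Matrix (Fin m) (Fin m) k)
    (τ : S ≃ₐ[k] S) : MvPolynomial (Fin 2 × Fin m) S →+* MvPolynomial (Fin 2 × Fin m) S :=
  eval₂Hom (C.comp (τ : S →+* S))
    fun q => ∑ l, ∑ j, C (algebraMap k S (A l q.1 * B j q.2)) * X (l, j)

/-- The algebra of the polynomials which are invariant under the group `G`, which acts through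
two representations `ρ` and `χ` of dimensions `2` and `m` and an action `ψ` on `S`. -/
noncomputable def invariants (ρ : G →* Matrix.GeneralLinearGroup (Fin 2) k)
    (χ : G →* Matrix.GeneralLinearGroup (Fin m) k) (ψ : G →* (S ≃ₐ[k] S)) :
    Subalgebra k (MvPolynomial (Fin 2 × Fin m) S) where
  carrier := {f | ∀ g, subst (ρ g : Matrix (Fin 2) (Fin 2) k) (χ g : Matrix (Fin m) (Fin m) k)
    (ψ g) f = f}
  mul_mem' := fun {a b} ha hb g => by rw [map_mul, ha g, hb g]
  add_mem' := fun {a b} ha hb g => by rw [map_add, ha g, hb g]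
  algebraMap_mem' := fun c g => by
    change subst _ _ _ (C (algebraMap k S c)) = C (algebraMap k S c)
    have h1 : subst (ρ g : Matrix (Fin 2) (Fin 2) k) (χ g : Matrix (Fin m) (Fin m) k) (ψ g)
      (C (algebraMap k S c)) = C (ψ g (algebraMap k S c)) := eval₂Hom_C _ _ _
    rw [h1, AlgEquiv.commutes]

/-- The quotient of `Spec S × A^(2 m)` by the group `G`. -/
noncomputable def quot (ρ : G →* Matrix.GeneralLinearGroup (Fin 2) k)
    (χ : G →* Matrix.GeneralLinearGroup (Fin m) k) (ψ : G →* (S ≃ₐ[k] S)) : Scheme.{0} :=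
  Spec (CommRingCat.of (invariants ρ χ ψ))

/-- The structure morphism of the quotient. -/
noncomputable def quotStr (ρ : G →* Matrix.GeneralLinearGroup (Fin 2) k)
    (χ : G →* Matrix.GeneralLinearGroup (Fin m) k) (ψ : G →* (S ≃ₐ[k] S)) :
    quot ρ χ ψ ⟶ Spec (CommRingCat.of k) :=
  Spec.map (CommRingCat.ofHom (algebraMap k (invariants ρ χ ψ)))

/-- Let `k` be a perfect field of characteristic `p > 0`, `Z = Spec S` for a regular integral
domain `S` which is a finitely generated `k`-algebra (so `Z` is a smooth affine variety), and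
`G` a finite group with a representation `ρ` on the vector space `V = k ^ 2`, a representation `χ`
on the vector space `W = k ^ m`, `m > 0`, and an action `ψ` on `Z` over `k`. Suppose that the images
of `χ` and `ψ` are commutative, that the order of the image of `(χ, ψ)` is prime to `p`, and that
`k` contains the roots of unity whose order divides the exponent of this image. There is no
condition on `ρ`. Then the quotient of `Z × (V ⊗ W)` by `G` is a variety and has a resolution of
singularities. (For `S = k` and trivial `χ` and `ψ` this is the quotient of `V ^ m` by an arbitrary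
finite subgroup of `GL_2(k)`, in which `p` may divide the order of the group.) -/
theorem result (k : Type) [Field k] [PerfectField k] (p : ℕ) [Fact p.Prime] [CharP k p]
    (S : Type) [CommRing S] [IsDomain S] [IsRegularRing S] [Algebra k S] [Algebra.FiniteType k S]
    (m : ℕ) (hm : 0 < m) (G : Type) [Group G] [Finite G]
    (ρ : G →* Matrix.GeneralLinearGroup (Fin 2) k)
    (χ : G →* Matrix.GeneralLinearGroup (Fin m) k) (ψ : G →* (S ≃ₐ[k] S))
    (hχ : ∀ g h, χ g * χ h = χ h * χ g) (hψ : ∀ g h, ψ g * ψ h = ψ h * ψ g)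
    (hord : ¬ p ∣ Nat.card (χ.prod ψ).range)
    (hroots : HasEnoughRootsOfUnity k (Monoid.exponent (χ.prod ψ).range)) :
    IsVariety (quotStr ρ χ ψ) ∧
    ∃ (Y : Scheme.{0}) (π : Y ⟶ quot ρ χ ψ),
      AlgebraicGeometry.IsIntegral Y ∧ AlgebraicGeometry.IsProper π ∧
      AlgebraicGeometry.Smooth (π ≫ quotStr ρ χ ψ) ∧
      ∃ U : (quot ρ χ ψ).Opens, Dense (U : Set (quot ρ χ ψ)) ∧ IsIso (π ∣_ U) :=
  Run7.h342.RZ.main hm p ρ χ ψ hχ hψ
    (fun h => hord ((CharP.cast_eq_zero_iff k p _).1 h)) hroots (invariants ρ χ ψ)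
    fun _ => Iff.rfl

end Pool.Agent.Results.MP_19ffc6_ag.TwoDimensionalRepresentations
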